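import Pool.Agent.helper5.SYM.SpecA

set_option autoImplicit false

namespace Pool.Agent.SYM
open Finset CT Polynomial

theorem PS4_log (a b : ℕ) (hb : b ≠ 0) : Nat.log 2 (2 ^ a * b) = a + Nat.log 2 b := by
  induction a with
  | zero => simp
  | succ a ih =>
    have h : 2 ^ (a + 1) * b = (2 ^ a * b) * 2 := by ring
    rw [h, Nat.log_mul_base (by norm_num) (by positivity), ih]
    ring

theorem PS4_wA1 {A : Type} [AddCommGroup A] [Finite A] (hA : Nat.card A = 4) (h : A) :
    wA h = 1 ↔ h + h ≠ 0 := by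
  have h1 : addOrderOf h ∣ 4 := hA ▸ addOrderOf_dvd_natCard h
  have h2 : addOrderOf h ≤ 4 := Nat.le_of_dvd (by norm_num) h1
  have h3 : h + h = 0 ↔ addOrderOf h ∣ 2 := by
    rw [addOrderOf_dvd_iff_nsmul_eq_zero, two_nsmul]
  unfold wA
  rw [hA, ne_eq, h3]
  have h4 : ∀ n : ℕ, n ≤ 4 → n ∣ 4 → (4 / n = 1 ↔ ¬ n ∣ 2) := by decide
  exact h4 _ h2 h1

theorem PS4_wA2 {A : Type} [AddCommGroup A] [Finite A] (hA : Nat.card A = 4) (h g : A)
    (hg : g ∈ O2 A) : wA h = 1 ↔ wA (h - g) = 1 := by
  rw [PS4_wA1 hA, PS4_wA1 hA]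
  have : h - g + (h - g) = h + h := by
    have h1 : h - g + (h - g) = h + h - (g + g) := by abel
    rw [h1, hg.2, sub_zero]
  rw [this]

theorem PS4_wA3 {A : Type} [AddCommGroup A] [Finite A] (hA : Nat.card A = 4) (g : A)
    (hg : g ∈ O2 A) : wA g = 2 := by
  have h1 : addOrderOf g = 2 := addOrderOf_eq_prime (by rw [two_nsmul]; exact hg.2) hg.1
  unfold wA
  rw [hA, h1]

/-- The number of elements of order 2 is odd. -/
theorem PS4_odd {A : Type} [AddCommGroup A] [Fintype A] (hA : Nat.card A = 4)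
    [DecidablePred fun g : A => g ∈ O2 A] :
    (((univ : Finset A).filter fun g => g ∈ O2 A).card : ZMod 2) = 1 := by
  classical
  have e1 : ∑ g : A, (if g + g ≠ 0 then (1 : ZMod 2) else 0) = 0 := by
    refine Finset.sum_involution (fun g _ => - g) ?_ ?_ ?_ ?_
    · intro g _
      have h1 : (-g + -g ≠ 0) ↔ (g + g ≠ 0) := by
        rw [← neg_add, ne_eq, neg_eq_zero]
      by_cases h : g + g ≠ 0
      · rw [if_pos h, if_pos (h1.2 h)]; decide
      · rw [if_neg h, if_neg (fun h' => h (h1.1 h'))]; decide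
    · intro g _ h1 h2
      apply h1
      rw [if_neg]
      intro h3
      apply h3
      nth_rewrite 1 [← h2]
      exact neg_add_cancel g
    · intro g _; exact mem_univ _
    · intro g _; exact neg_neg g
  have e2 : ∑ g : A, (1 : ZMod 2) = 0 := by
    rw [Finset.sum_const, Finset.card_univ, ← Nat.card_eq_fintype_card, hA]; decide
  have e3 : ∑ g : A, (if g = 0 then (1 : ZMod 2) else 0) = 1 := by simp
  rw [Finset.card_filter]
  push_cast
  have e4 : ∑ g : A, (if g ∈ O2 A then (1 : ZMod 2) else 0) =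
      ∑ g : A, ((1 : ZMod 2) - (if g + g ≠ 0 then (1 : ZMod 2) else 0) -
        (if g = 0 then (1 : ZMod 2) else 0)) := by
    apply Finset.sum_congr rfl
    intro g _
    by_cases h0 : g = 0
    · subst h0
      have : (0 : A) ∉ O2 A := fun h => h.1 rfl
      simp [this]
    · by_cases h1 : g + g = 0
      · have : g ∈ O2 A := ⟨h0, h1⟩
        simp [this, h0, h1]
      · have : g ∉ O2 A := fun h => h1 h.2
        simp [this, h0, h1]
  rw [e4, Finset.sum_sub_distrib, Finset.sum_sub_distrib, e1, e2, e3]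
  decide

section
variable {W A : Type} [AddCommGroup A]

/-- The number of labelings (all ends with one dart are dead ends). -/
noncomputable def PS4_N (C : Finset (W × Fin 4)) (J : Finset W) (p : W × Fin 4)
    (γ : W × Fin 4 → A) (e : W × Fin 4 → W × Fin 4) (α : W × Fin 4 → A) (t : W → Fin 3) : ℕ :=
  Nat.card {Φ : W × Fin 4 → A → Bool // Lab e α Φ ∧ (∀ c ∈ C, CapC (γ c) (Φ c)) ∧
    (∀ j ∈ J, VC (γ (j, 0)) (t j) (Φ (j, 0)) (Φ (j, 1))) ∧ Φ p = fun _ => false}

/-- The sum over the resolutions. -/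
noncomputable def PS4_P [Fintype W] [DecidableEq W] (C : Finset (W × Fin 4)) (J : Finset W)
    (p : W × Fin 4) (γ : W × Fin 4 → A) (e : W × Fin 4 → W × Fin 4) (α : W × Fin 4 → A) :
    (ZMod 2)[X] :=
  ∑ t ∈ pf J, X ^ Nat.log 2 (PS4_N C J p γ e α t)

theorem PS4_VC0 (g : A) (s : Fin 3) : VC g s (fun _ => false) (fun _ => false) := by
  unfold VC CapC
  split_ifs <;> simp

theorem PS4_pos [Finite W] [Finite A] (C : Finset (W × Fin 4)) (J : Finset W) (p : W × Fin 4)
    (γ : W × Fin 4 → A) (e : W × Fin 4 → W × Fin 4) (α : W × Fin 4 → A) (t : W → Fin 3) :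
    PS4_N C J p γ e α t ≠ 0 := by
  unfold PS4_N
  rw [Nat.card_ne_zero]
  refine ⟨⟨⟨fun _ _ => false, ⟨fun _ _ => rfl, fun _ _ => rfl⟩, fun _ _ _ => rfl,
    fun _ _ => PS4_VC0 _ _, rfl⟩⟩, inferInstance⟩

/-! ### The sum over `pf` -/

theorem PS4_pf [Fintype W] [DecidableEq W] {M : Type} [AddCommMonoid M] (j : W) (J : Finset W)
    (hj : j ∉ J) (F : (W → Fin 3) → M) :
    ∑ t ∈ pf (insert j J), F t = ∑ s : Fin 3, ∑ t ∈ pf J, F (Function.update t j s) := by
  rw [← Finset.sum_product']
  symm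
  refine Finset.sum_bij' (fun x _ => Function.update x.2 j x.1)
    (fun t _ => (t j, Function.update t j 0)) ?_ ?_ ?_ ?_ ?_
  · rintro ⟨s, t⟩ h
    rw [mem_product] at h
    have h2 := h.2
    unfold pf at h2 ⊢
    rw [Fintype.mem_piFinset] at h2 ⊢
    intro k
    by_cases hk : k = j
    · subst hk; simp
    · have := h2 k
      simp only [Function.update_of_ne hk, mem_insert, hk, false_or]
      exact this
  · intro t h
    unfold pf at h
    rw [Fintype.mem_piFinset] at h
    rw [mem_product]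
    refine ⟨mem_univ _, ?_⟩
    unfold pf
    rw [Fintype.mem_piFinset]
    intro k
    by_cases hk : k = j
    · subst hk; simp [hj]
    · have := h k
      simp only [mem_insert, hk, false_or] at this
      simp only [Function.update_of_ne hk]
      exact this
  · rintro ⟨s, t⟩ h
    rw [mem_product] at h
    have h2 := h.2
    unfold pf at h2
    rw [Fintype.mem_piFinset] at h2
    have h3 : t j = 0 := by
      have := h2 j
      simp only [hj, if_false, mem_singleton] at this
      exact this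
    simp only [Function.update_self, Function.update_idem, Prod.mk.injEq, true_and]
    rw [← h3, Function.update_eq_self]
  · intro t _
    simp
  · rintro ⟨s, t⟩ _
    rfl

/-! ### Joins -/

theorem PS4_jn [Fintype W] [DecidableEq W] [Finite A] (hJL : JL_stmt) (C : Finset (W × Fin 4))
    (J : Finset W) (p : W × Fin 4) (γ : W × Fin 4 → A) (e : W × Fin 4 → W × Fin 4)
    (α : W × Fin 4 → A) (t : W → Fin 3) (j : W) (hj : j ∉ J) (hC : ∀ c ∈ C, c.1 ≠ j)
    (hp : p ∈ C) (he : ∀ d, e (e d) = d) (hα : Vol e α) (hx : e (j, 0) ≠ (j, 0))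
    (hy : e (j, 1) ≠ (j, 1)) (s : Fin 3) (β : A) (_hs : s ≠ 0)
    (hsβ : ∀ φ ψ : A → Bool, VC (γ (j, 0)) s φ ψ ↔ ∀ g, ψ (g + β) = φ g) :
    PS4_N C (insert j J) p γ e α (Function.update t j s) =
      2 ^ lv e α (j, 0) (j, 1) β *
        PS4_N C J p γ (join e (j, 0) (j, 1)) (jv e α (j, 0) (j, 1) β) t := by
  have hxy : ((j, 0) : W × Fin 4) ≠ (j, 1) := by
    intro h
    have h2 : (0 : Fin 4) = 1 := congrArg Prod.snd h
    exact absurd h2 (by decide)
  have key := hJL (W × Fin 4) A e α (j, 0) (j, 1) β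
    (fun Φ => (∀ c ∈ C, CapC (γ c) (Φ c)) ∧
      (∀ i ∈ J, VC (γ (i, 0)) (t i) (Φ (i, 0)) (Φ (i, 1))) ∧ Φ p = fun _ => false)
    he hα hxy hx hy (by
      intro Φ Φ' h
      have hC' : ∀ c ∈ C, Φ c = Φ' c := by
        intro c hc
        apply h
        · intro h1; exact hC c hc (congrArg Prod.fst h1)
        · intro h1; exact hC c hc (congrArg Prod.fst h1)
      have hJ' : ∀ i ∈ J, ∀ k, Φ (i, k) = Φ' (i, k) := by
        intro i hi k
        have hij : i ≠ j := fun h1 => hj (h1 ▸ hi)
        apply h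
        · intro h1; exact hij (congrArg Prod.fst h1)
        · intro h1; exact hij (congrArg Prod.fst h1)
      have e1 : (∀ c ∈ C, CapC (γ c) (Φ c)) ↔ (∀ c ∈ C, CapC (γ c) (Φ' c)) := by
        constructor
        · intro h1 c hc; rw [← hC' c hc]; exact h1 c hc
        · intro h1 c hc; rw [hC' c hc]; exact h1 c hc
      have e2 : (∀ i ∈ J, VC (γ (i, 0)) (t i) (Φ (i, 0)) (Φ (i, 1))) ↔
          (∀ i ∈ J, VC (γ (i, 0)) (t i) (Φ' (i, 0)) (Φ' (i, 1))) := by
        constructor
        · intro h1 i hi; rw [← hJ' i hi 0, ← hJ' i hi 1]; exact h1 i hi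
        · intro h1 i hi; rw [hJ' i hi 0, hJ' i hi 1]; exact h1 i hi
      rw [e1, e2, hC' p hp])
  unfold PS4_N
  rw [← key]
  apply Nat.card_congr
  apply Equiv.subtypeEquivRight
  intro Φ
  have e3 : (∀ i ∈ insert j J, VC (γ (i, 0)) (Function.update t j s i) (Φ (i, 0)) (Φ (i, 1))) ↔
      (∀ i ∈ J, VC (γ (i, 0)) (t i) (Φ (i, 0)) (Φ (i, 1))) ∧
        ∀ g, Φ (j, 1) (g + β) = Φ (j, 0) g := by
    rw [Finset.forall_mem_insert, Function.update_self, hsβ, and_comm]
    apply and_congr_left
    intro _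
    apply forall₂_congr
    intro i hi
    have hij : i ≠ j := fun h1 => hj (h1 ▸ hi)
    rw [Function.update_of_ne hij]
  rw [e3]
  tauto

theorem PS4_cap [DecidableEq W] (C : Finset (W × Fin 4))
    (J : Finset W) (p : W × Fin 4) (γ : W × Fin 4 → A) (e : W × Fin 4 → W × Fin 4)
    (α : W × Fin 4 → A) (t : W → Fin 3) (j : W) (hj : j ∉ J) (hC : ∀ c ∈ C, c.1 ≠ j) :
    PS4_N C (insert j J) p γ e α (Function.update t j 0) =
      PS4_N (insert (j, 0) (insert (j, 1) C)) J p (Function.update γ (j, 1) (γ (j, 0))) e α t := by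
  have hxy : ((j, 0) : W × Fin 4) ≠ (j, 1) := by
    intro h
    have h2 : (0 : Fin 4) = 1 := congrArg Prod.snd h
    exact absurd h2 (by decide)
  unfold PS4_N
  apply Nat.card_congr
  apply Equiv.subtypeEquivRight
  intro Φ
  have e3 : (∀ i ∈ insert j J, VC (γ (i, 0)) (Function.update t j 0 i) (Φ (i, 0)) (Φ (i, 1))) ↔
      (CapC (γ (j, 0)) (Φ (j, 0)) ∧ CapC (γ (j, 0)) (Φ (j, 1))) ∧
        (∀ i ∈ J, VC (Function.update γ (j, 1) (γ (j, 0)) (i, 0)) (t i) (Φ (i, 0)) (Φ (i, 1))) := by
    rw [Finset.forall_mem_insert, Function.update_self]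
    have e4 : VC (γ (j, 0)) 0 (Φ (j, 0)) (Φ (j, 1)) ↔
        (CapC (γ (j, 0)) (Φ (j, 0)) ∧ CapC (γ (j, 0)) (Φ (j, 1))) := by
      unfold VC; rw [if_pos rfl]
    rw [e4]
    apply and_congr_right
    intro _
    apply forall₂_congr
    intro i hi
    have hij : i ≠ j := fun h1 => hj (h1 ▸ hi)
    have h5 : ((i, 0) : W × Fin 4) ≠ (j, 1) := fun h => hij (congrArg Prod.fst h)
    rw [Function.update_of_ne hij, Function.update_of_ne h5]
  have e5 : (∀ c ∈ insert (j, 0) (insert (j, 1) C),
      CapC (Function.update γ (j, 1) (γ (j, 0)) c) (Φ c)) ↔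
      (CapC (γ (j, 0)) (Φ (j, 0)) ∧ CapC (γ (j, 0)) (Φ (j, 1)) ∧
        ∀ c ∈ C, CapC (γ c) (Φ c)) := by
    rw [Finset.forall_mem_insert, Finset.forall_mem_insert, Function.update_self,
      Function.update_of_ne hxy]
    apply and_congr_right
    intro _
    apply and_congr_right
    intro _
    apply forall₂_congr
    intro c hc
    have h6 : c ≠ (j, 1) := fun h => hC c hc (congrArg Prod.fst h)
    rw [Function.update_of_ne h6]
  rw [e3, e5]
  tauto

/-- The case of a strand from `(j,0)` to `(j,1)`, both dead ends: at least 4 labelings. -/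
theorem PS4_low [Finite W] [DecidableEq W] [Finite A] (hWT : WT_stmt) (hA : Nat.card A = 4)
    (C : Finset (W × Fin 4)) (J : Finset W) (p : W × Fin 4) (γ : W × Fin 4 → A)
    (e : W × Fin 4 → W × Fin 4) (α : W × Fin 4 → A) (t : W → Fin 3) (j : W) (hj : j ∉ J)
    (hC : ∀ c ∈ C, c.1 ≠ j) (hp : p ∈ C) (he : ∀ d, e (e d) = d) (hα : Vol e α)
    (hxy : e (j, 0) = (j, 1)) (hg : γ (j, 0) ∈ O2 A) :
    4 ≤ PS4_N C (insert j J) p γ e α (Function.update t j 0) := by
  have hxy' : ((j, 0) : W × Fin 4) ≠ (j, 1) := by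
    intro h
    have h2 : (0 : Fin 4) = 1 := congrArg Prod.snd h
    exact absurd h2 (by decide)
  have hyx : e (j, 1) = (j, 0) := by rw [← hxy, he]
  have h1 : Nat.card {f : A → Bool // ∀ g, f (g + γ (j, 0)) = f g} = 4 := by
    rw [(hWT A (γ (j, 0))).1, PS4_wA3 hA _ hg]; norm_num
  rw [← h1]
  have hαy : α (j, 1) = - α (j, 0) := by rw [← hxy]; exact hα.1 _
  let Ψ : (A → Bool) → W × Fin 4 → A → Bool := fun f d =>
    if d = (j, 0) then f else if d = (j, 1) then fun a => f (a - α (j, 0)) else fun _ => false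
  have Ψ0 : ∀ f, Ψ f (j, 0) = f := by intro f; simp [Ψ]
  have Ψ1 : ∀ f, Ψ f (j, 1) = fun a => f (a - α (j, 0)) := by
    intro f; simp [Ψ, hxy'.symm]
  have Ψ2 : ∀ f d, d ≠ (j, 0) → d ≠ (j, 1) → Ψ f d = fun _ => false := by
    intro f d h1 h2; simp [Ψ, h1, h2]
  have Ψ3 : ∀ f (d : W × Fin 4), d.1 ≠ j → Ψ f d = fun _ => false := by
    intro f d hd
    exact Ψ2 f d (fun h => hd (congrArg Prod.fst h)) (fun h => hd (congrArg Prod.fst h))
  unfold PS4_N
  refine Nat.card_le_card_of_injective (fun f => ⟨Ψ f.1, ?_, ?_, ?_, ?_⟩) ?_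
  · constructor
    · intro d g
      by_cases d0 : d = (j, 0)
      · subst d0
        rw [hxy, Ψ0, Ψ1]
        simp
      by_cases d1 : d = (j, 1)
      · subst d1
        rw [hyx, Ψ0, Ψ1, hαy]
        simp [sub_eq_add_neg]
      have d2 : e d ≠ (j, 0) := by
        intro h; apply d1; rw [← hxy, ← h, he]
      have d3 : e d ≠ (j, 1) := by
        intro h; apply d0; rw [← hyx, ← h, he]
      rw [Ψ2 _ _ d2 d3, Ψ2 _ _ d0 d1]
    · intro d hd
      apply Ψ2
      · rintro rfl; rw [hxy] at hd; exact hxy' hd.symm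
      · rintro rfl; rw [hyx] at hd; exact hxy' hd
  · intro c hc g
    rw [Ψ3 _ _ (hC c hc)]
  · intro i hi
    rw [mem_insert] at hi
    rcases hi with rfl | hi
    · rw [Function.update_self]
      unfold VC
      rw [if_pos rfl, Ψ0, Ψ1]
      refine ⟨f.2, ?_⟩
      intro g
      have h2 : g + γ (i, 0) - α (i, 0) = g - α (i, 0) + γ (i, 0) := by abel
      simp only [h2]
      exact f.2 _
    · have hij : i ≠ j := fun h1 => hj (h1 ▸ hi)
      rw [Ψ3 _ (i, 0) hij, Ψ3 _ (i, 1) hij]
      exact PS4_VC0 _ _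
  · exact Ψ3 _ _ (hC p hp)
  · intro f f' h
    have h2 := congrArg (fun Φ => Φ.1 (j, 0)) h
    simp only [Ψ0] at h2
    exact Subtype.ext h2

/-! ### The base -/

theorem PS4_gauge [Finite W] (e : W × Fin 4 → W × Fin 4) (he : ∀ d, e (e d) = d)
    (α : W × Fin 4 → A) (hα : Vol e α) : ∃ r : W × Fin 4 → A, ∀ d, α d = r (e d) - r d := by
  classical
  have : Fintype (W × Fin 4) := Fintype.ofFinite _
  let φ := Fintype.equivFin (W × Fin 4)
  refine ⟨fun d => if φ d < φ (e d) then - α d else 0, ?_⟩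
  intro d
  simp only [he]
  rcases lt_trichotomy (φ d) (φ (e d)) with h | h | h
  · rw [if_pos h, if_neg (not_lt_of_gt h)]; simp
  · have h1 : d = e d := φ.injective h
    have h2 : α d = 0 := hα.2 d h1.symm
    rw [← h1, h2]; simp
  · rw [if_pos h, if_neg (not_lt_of_gt h), hα.1]; simp

theorem PS4_le [Finite W] [Finite A] (C : Finset (W × Fin 4)) (p : W × Fin 4)
    (γ : W × Fin 4 → A) (e : W × Fin 4 → W × Fin 4) (α α' : W × Fin 4 → A) (t : W → Fin 3)
    (he : ∀ d, e (e d) = d) (hα : Vol e α) (hα' : Vol e α') :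
    PS4_N C ∅ p γ e α t ≤ PS4_N C ∅ p γ e α' t := by
  have hδ : Vol e (fun d => α d - α' d) := by
    refine ⟨?_, ?_⟩
    · intro d
      have h1 := hα.1 d
      have h2 := hα'.1 d
      simp only [h1, h2]
      abel
    · intro d hd
      simp only [hα.2 d hd, hα'.2 d hd, sub_zero]
  obtain ⟨r, hr⟩ := PS4_gauge e he _ hδ
  unfold PS4_N
  refine Nat.card_le_card_of_injective
    (fun Φ => ⟨fun d g => Φ.1 d (g + r d), ?_, ?_, ?_, ?_⟩) ?_
  · refine ⟨?_, ?_⟩
    · intro d g
      have h1 := Φ.2.1.1 d (g + r d)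
      have h2 : g + α' d + r (e d) = g + r d + α d := by
        have h3 := hr d
        have h4 : α d = α' d + r (e d) - r d := by
          have : α d = α' d + (α d - α' d) := by abel
          rw [this, h3]; abel
        rw [h4]; abel
      simp only [h2]
      exact h1
    · intro d hd
      funext g
      have := Φ.2.1.2 d hd
      simp only [this]
  · intro c hc g
    have h1 := Φ.2.2.1 c hc (g + r c)
    have h2 : g + γ c + r c = g + r c + γ c := by abel
    simp only [h2]
    exact h1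
  · intro j hj
    exact absurd hj (Finset.notMem_empty j)
  · funext g
    have := Φ.2.2.2.2
    simp only [this]
  · intro Φ Φ' h
    apply Subtype.ext
    funext d g
    have h1 := congrArg (fun Φ => Φ.1 d (g - r d)) h
    simp only [sub_add_cancel] at h1
    exact h1

theorem PS4_one [Finite W] [DecidableEq W] [Finite A] (C : Finset (W × Fin 4)) (p : W × Fin 4)
    (γ : W × Fin 4 → A) (e : W × Fin 4 → W × Fin 4) (α : W × Fin 4 → A) (t : W → Fin 3)
    (he : Act C e) (hp : p ∈ C) (hC : C.card = 2) :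
    PS4_N C ∅ p γ e α t = 1 := by
  have hep : e p ≠ p := (he.2 p).2 hp
  have hep' : e p ∈ C := by
    rw [← he.2, he.1]; exact hep.symm
  have hCC : C = {p, e p} := by
    symm
    apply Finset.eq_of_subset_of_card_le
    · intro z hz
      rw [mem_insert, mem_singleton] at hz
      rcases hz with rfl | rfl
      · exact hp
      · exact hep'
    · rw [hC, Finset.card_pair hep.symm]
  unfold PS4_N
  rw [Nat.card_eq_one_iff_unique]
  refine ⟨⟨?_⟩, ⟨⟨fun _ _ => false, ⟨fun _ _ => rfl, fun _ _ => rfl⟩, fun _ _ _ => rfl,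
    fun _ _ => PS4_VC0 _ _, rfl⟩⟩⟩
  have key : ∀ Φ : W × Fin 4 → A → Bool, Lab e α Φ → Φ p = (fun _ => false) →
      Φ = fun _ _ => false := by
    intro Φ h1 h2
    funext d
    by_cases hd : d ∈ C
    · rw [hCC, mem_insert, mem_singleton] at hd
      rcases hd with rfl | rfl
      · exact h2
      · funext g
        have h3 := h1.1 p (g - α p)
        rw [sub_add_cancel, h2] at h3
        exact h3
    · apply h1.2
      by_contra h3
      exact hd ((he.2 d).1 h3)
  intro Φ Φ'
  apply Subtype.ext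
  rw [key Φ.1 Φ.2.1 Φ.2.2.2.2, key Φ'.1 Φ'.2.1 Φ'.2.2.2.2]

theorem PS4_exx [DecidableEq W] (C : Finset (W × Fin 4)) (p : W × Fin 4)
    (e : W × Fin 4 → W × Fin 4) (he : Act C e) (hp : p ∈ C) (hC : C.card ≠ 2) :
    ∃ x ∈ C, x ≠ p ∧ x ≠ e p := by
  by_contra hcon
  push Not at hcon
  have hep : e p ≠ p := (he.2 p).2 hp
  have hep' : e p ∈ C := by
    rw [← he.2, he.1]; exact hep.symm
  apply hC
  have hCC : C = {p, e p} := by
    ext z
    rw [mem_insert, mem_singleton]
    constructor
    · intro hz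
      by_cases h1 : z = p
      · exact Or.inl h1
      · exact Or.inr (hcon z hz h1)
    · rintro (rfl | rfl)
      · exact hp
      · exact hep'
  rw [hCC, Finset.card_pair hep.symm]

theorem PS4_exy [DecidableEq W] (C : Finset (W × Fin 4)) (p x : W × Fin 4)
    (e : W × Fin 4 → W × Fin 4) (he : Act C e) (hp : p ∈ C) (hC : C.card ≠ 4)
    (hx : x ∈ C) (h1 : x ≠ p) (h2 : x ≠ e p) :
    ∃ y ∈ C, (y ≠ p ∧ y ≠ e p) ∧ y ≠ x ∧ y ≠ e x := by
  by_contra hcon
  push Not at hcon
  have hep : e p ≠ p := (he.2 p).2 hp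
  have hep' : e p ∈ C := by
    rw [← he.2, he.1]; exact hep.symm
  have hex : e x ≠ x := (he.2 x).2 hx
  have hex' : e x ∈ C := by
    rw [← he.2, he.1]; exact hex.symm
  have h3 : e x ≠ p := by
    intro h; apply h2; rw [← h, he.1]
  have h4 : e x ≠ e p := by
    intro h; apply h1; rw [← he.1 x, h, he.1]
  apply hC
  have hCC : C = {p, e p, x, e x} := by
    ext z
    simp only [mem_insert, mem_singleton]
    constructor
    · intro hz
      by_cases g1 : z = p
      · exact Or.inl g1
      by_cases g2 : z = e p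
      · exact Or.inr (Or.inl g2)
      by_cases g3 : z = x
      · exact Or.inr (Or.inr (Or.inl g3))
      exact Or.inr (Or.inr (Or.inr (hcon z hz ⟨g1, g2⟩ g3)))
    · rintro (rfl | rfl | rfl | rfl)
      · exact hp
      · exact hep'
      · exact hx
      · exact hex'
  rw [hCC]
  rw [Finset.card_insert_of_notMem, Finset.card_insert_of_notMem, Finset.card_pair hex.symm]
  · simp only [mem_insert, mem_singleton, not_or]
    exact ⟨h2.symm, h4.symm⟩
  · simp only [mem_insert, mem_singleton, not_or]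
    exact ⟨hep.symm, h1.symm, h3.symm⟩

/-- A constant labeling. -/
theorem PS4_const [DecidableEq W] (C : Finset (W × Fin 4)) (p : W × Fin 4)
    (γ : W × Fin 4 → A) (e : W × Fin 4 → W × Fin 4) (α : W × Fin 4 → A) (t : W → Fin 3)
    (b : W × Fin 4 → Bool) (hb : ∀ d, b (e d) = b d) (hb0 : ∀ d, e d = d → b d = false)
    (hbp : b p = false) :
    Lab e α (fun d _ => b d) ∧ (∀ c ∈ C, CapC (γ c) (fun _ : A => b c)) ∧
    (∀ j ∈ (∅ : Finset W), VC (γ (j, 0)) (t j) (fun _ : A => b (j, 0)) (fun _ : A => b (j, 1))) ∧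
      (fun _ : A => b p) = fun _ => false := by
  refine ⟨⟨fun d g => hb d, fun d hd => ?_⟩, fun _ _ _ => rfl, fun j hj => ?_, ?_⟩
  · funext g; exact hb0 d hd
  · exact absurd hj (Finset.notMem_empty j)
  · funext g; exact hbp

theorem PS4_two [Finite W] [DecidableEq W] [Finite A] (C : Finset (W × Fin 4)) (p : W × Fin 4)
    (γ : W × Fin 4 → A) (e : W × Fin 4 → W × Fin 4) (α : W × Fin 4 → A) (t : W → Fin 3)
    (he : Act C e) (hp : p ∈ C) (hC : C.card ≠ 2) :
    2 ≤ PS4_N C ∅ p γ e α t := by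
  obtain ⟨x, hx, h1, h2⟩ := PS4_exx C p e he hp hC
  have hex : e x ≠ x := (he.2 x).2 hx
  have h3 : e x ≠ p := by
    intro h; apply h2; rw [← h, he.1]
  have h4 : Nat.card Bool = 2 := by simp
  rw [← h4]
  unfold PS4_N
  let b : Bool → W × Fin 4 → Bool := fun a d => a && (decide (d = x) || decide (d = e x))
  have hb : ∀ a d, b a (e d) = b a d := by
    intro a d
    have i1 : (e d = x) ↔ (d = e x) := ⟨fun h => by rw [← h, he.1], fun h => by rw [h, he.1]⟩
    have i2 : (e d = e x) ↔ (d = x) := ⟨fun h => by rw [← he.1 d, h, he.1], fun h => by rw [h]⟩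
    simp only [b, i1, i2, Bool.or_comm]
  have hb0 : ∀ a d, e d = d → b a d = false := by
    intro a d hd
    have i1 : d ≠ x := by rintro rfl; exact hex hd
    have i2 : d ≠ e x := by
      rintro rfl; rw [he.1] at hd; exact hex hd.symm
    simp [b, i1, i2]
  have hbp : ∀ a, b a p = false := by
    intro a
    simp [b, h1.symm, h3.symm]
  refine Nat.card_le_card_of_injective (fun a => ⟨fun d _ => b a d,
    PS4_const C p γ e α t (b a) (hb a) (hb0 a) (hbp a)⟩) ?_
  intro a a' h
  have h5 := congrArg (fun Φ => Φ.1 x 0) h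
  simpa [b] using h5

theorem PS4_four [Finite W] [DecidableEq W] [Finite A] (C : Finset (W × Fin 4)) (p : W × Fin 4)
    (γ : W × Fin 4 → A) (e : W × Fin 4 → W × Fin 4) (α : W × Fin 4 → A) (t : W → Fin 3)
    (he : Act C e) (hp : p ∈ C) (hC : C.card ≠ 2) (hC4 : C.card ≠ 4) :
    4 ≤ PS4_N C ∅ p γ e α t := by
  obtain ⟨x, hx, h1, h2⟩ := PS4_exx C p e he hp hC
  obtain ⟨y, hy, ⟨h3, h4⟩, h5, h6⟩ := PS4_exy C p x e he hp hC4 hx h1 h2
  have hex : e x ≠ x := (he.2 x).2 hx
  have hey : e y ≠ y := (he.2 y).2 hy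
  have hxp : e x ≠ p := by
    intro h; apply h2; rw [← h, he.1]
  have hyp : e y ≠ p := by
    intro h; apply h4; rw [← h, he.1]
  have hxy : x ≠ e y := by
    intro h; apply h6; rw [h, he.1]
  have h7 : Nat.card (Bool × Bool) = 4 := by simp
  rw [← h7]
  unfold PS4_N
  let b : Bool × Bool → W × Fin 4 → Bool := fun a d =>
    (a.1 && (decide (d = x) || decide (d = e x))) || (a.2 && (decide (d = y) || decide (d = e y)))
  have hb : ∀ a d, b a (e d) = b a d := by
    intro a d
    have i1 : ∀ z, (e d = z) ↔ (d = e z) :=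
      fun z => ⟨fun h => by rw [← h, he.1], fun h => by rw [h, he.1]⟩
    have i2 : ∀ z, (e d = e z) ↔ (d = z) :=
      fun z => ⟨fun h => by rw [← he.1 d, h, he.1], fun h => by rw [h]⟩
    simp only [b, i1 x, i2 x, i1 y, i2 y]
    rw [Bool.or_comm (decide (d = e x)), Bool.or_comm (decide (d = e y))]
  have hb0 : ∀ a d, e d = d → b a d = false := by
    intro a d hd
    have i1 : d ≠ x := by rintro rfl; exact hex hd
    have i2 : d ≠ e x := by
      rintro rfl; rw [he.1] at hd; exact hex hd.symm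
    have i3 : d ≠ y := by rintro rfl; exact hey hd
    have i4 : d ≠ e y := by
      rintro rfl; rw [he.1] at hd; exact hey hd.symm
    simp [b, i1, i2, i3, i4]
  have hbp : ∀ a, b a p = false := by
    intro a
    simp [b, h1.symm, hxp.symm, h3.symm, hyp.symm]
  refine Nat.card_le_card_of_injective (fun a => ⟨fun d _ => b a d,
    PS4_const C p γ e α t (b a) (hb a) (hb0 a) (hbp a)⟩) ?_
  intro a a' h
  have i5 := congrArg (fun Φ => Φ.1 x 0) h
  have i6 := congrArg (fun Φ => Φ.1 y 0) h
  apply Prod.ext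
  · simpa [b, h5.symm, hxy] using i5
  · simpa [b, h5, h6] using i6

end

/-! ### Coefficients -/

theorem PS4_X0 (n : ℕ) (hn : 1 ≤ n) : ((X : (ZMod 2)[X]) ^ n).coeff 0 = 0 := by
  rw [coeff_X_pow, if_neg (by omega)]

theorem PS4_X1 (n : ℕ) (hn : 2 ≤ n) : ((X : (ZMod 2)[X]) ^ n).coeff 1 = 0 := by
  rw [coeff_X_pow, if_neg (by omega)]

theorem PS4_mul0 (n : ℕ) (hn : 1 ≤ n) (P : (ZMod 2)[X]) : (X ^ n * P).coeff 0 = 0 := by
  rw [mul_coeff_zero, PS4_X0 n hn, zero_mul]

theorem PS4_mul1 (n : ℕ) (hn : 1 ≤ n) (P : (ZMod 2)[X]) :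
    (X ^ n * P).coeff 1 = if n = 1 then P.coeff 0 else 0 := by
  rw [coeff_X_pow_mul']
  by_cases h : n = 1
  · subst h; simp
  · rw [if_neg (by omega), if_neg h]

section
variable {W A : Type} [AddCommGroup A]

theorem PS4_base [Fintype W] [DecidableEq W] [Finite A] (C : Finset (W × Fin 4)) (p : W × Fin 4)
    (γ : W × Fin 4 → A) (e : W × Fin 4 → W × Fin 4) (α α' : W × Fin 4 → A)
    (he : Act C e) (hp : p ∈ C) (hα : Vol e α) (hα' : Vol e α') :
    (PS4_P C ∅ p γ e α).coeff 0 = (if C.card = 2 then 1 else 0) ∧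
    (C.card ≠ 4 → (PS4_P C ∅ p γ e α).coeff 1 = 0) ∧
    (PS4_P C ∅ p γ e α).coeff 1 = (PS4_P C ∅ p γ e α').coeff 1 := by
  have hpf : pf (∅ : Finset W) = {fun _ => 0} := by
    unfold pf
    ext t
    rw [Fintype.mem_piFinset, mem_singleton]
    constructor
    · intro h; funext k; simpa using h k
    · rintro rfl k; simp
  have hP : ∀ α, PS4_P C ∅ p γ e α = X ^ Nat.log 2 (PS4_N C ∅ p γ e α fun _ => 0) := by
    intro α
    unfold PS4_P
    rw [hpf, Finset.sum_singleton]
  have hN : PS4_N C ∅ p γ e α (fun _ => 0) = PS4_N C ∅ p γ e α' (fun _ => 0) :=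
    le_antisymm (PS4_le C p γ e α α' _ he.1 hα hα') (PS4_le C p γ e α' α _ he.1 hα' hα)
  rw [hP, hP, ← hN]
  refine ⟨?_, ?_, rfl⟩
  · by_cases h : C.card = 2
    · rw [if_pos h, PS4_one C p γ e α _ he hp h]; simp
    · rw [if_neg h]
      apply PS4_X0
      exact Nat.le_log_of_pow_le (by norm_num) (PS4_two C p γ e α _ he hp h)
  · intro h
    by_cases h2 : C.card = 2
    · rw [PS4_one C p γ e α _ he hp h2]
      simp [coeff_one]
    · apply PS4_X1
      exact Nat.le_log_of_pow_le (by norm_num) (PS4_four C p γ e α _ he hp h2 h)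

theorem PS4_ind [Fintype W] [DecidableEq W] [Finite A] (hWT : WT_stmt) (hJV : JV_stmt)
    (hJL : JL_stmt) (hA : Nat.card A = 4) (p : W × Fin 4) (J : Finset W) :
    ∀ (C : Finset (W × Fin 4)) (γ : W × Fin 4 → A) (e : W × Fin 4 → W × Fin 4),
    (∀ c ∈ C, c.1 ∉ J) → p ∈ C → (∀ j ∈ J, γ (j, 0) ∈ O2 A) →
    Act (C ∪ jd J) e → ∀ α α', Vol e α → Vol e α' →
    (PS4_P C J p γ e α).coeff 0 = (if (C ∪ jd J).card = 2 then 1 else 0) ∧
    ((C ∪ jd J).card ≠ 4 → (PS4_P C J p γ e α).coeff 1 = 0) ∧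
    (PS4_P C J p γ e α).coeff 1 = (PS4_P C J p γ e α').coeff 1 := by
  induction J using Finset.induction_on with
  | empty =>
    intro C γ e _ hp _ he α α' hα hα'
    have h0 : C ∪ jd (∅ : Finset W) = C := by simp [jd]
    rw [h0] at he ⊢
    exact PS4_base C p γ e α α' he hp hα hα'
  | insert j J hj ih =>
    intro C γ e hC hp hγ he α α' hα hα'
    have hxy : ((j, 0) : W × Fin 4) ≠ (j, 1) := by
      intro h
      have h2 : (0 : Fin 4) = 1 := congrArg Prod.snd h
      exact absurd h2 (by decide)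
    have hCj : ∀ c ∈ C, c.1 ≠ j := fun c hc h => hC c hc (h ▸ mem_insert_self _ _)
    have hCJ : ∀ c ∈ C, c.1 ∉ J := fun c hc h => hC c hc (mem_insert_of_mem h)
    have hγj : γ (j, 0) ∈ O2 A := hγ j (mem_insert_self _ _)
    have hγJ : ∀ i ∈ J, γ (i, 0) ∈ O2 A := fun i hi => hγ i (mem_insert_of_mem hi)
    have hE : C ∪ jd (insert j J) = insert (j, 0) (insert (j, 1) C) ∪ jd J := by
      ext z
      obtain ⟨z1, z2⟩ := z
      simp only [jd, mem_union, mem_product, mem_insert, mem_singleton, Prod.mk.injEq]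
      tauto
    have hxE : ((j, 0) : W × Fin 4) ∈ C ∪ jd (insert j J) := by
      rw [hE]; simp
    have hyE : ((j, 1) : W × Fin 4) ∈ C ∪ jd (insert j J) := by
      rw [hE]; simp
    have hex := (he.2 _).2 hxE
    have hey := (he.2 _).2 hyE
    -- the ends after the join
    have hE' : ((C ∪ jd (insert j J)).erase (j, 0)).erase (j, 1) = C ∪ jd J := by
      ext z
      have c0 : z ∈ C → z ≠ (j, 0) ∧ z ≠ (j, 1) := fun h =>
        ⟨fun h2 => hCj z h (congrArg Prod.fst h2), fun h2 => hCj z h (congrArg Prod.fst h2)⟩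
      have c1 : z ∈ jd J → z ≠ (j, 0) ∧ z ≠ (j, 1) := by
        intro h
        rw [jd, mem_product] at h
        constructor
        · rintro rfl; exact hj h.1
        · rintro rfl; exact hj h.1
      rw [hE]
      simp only [mem_erase, mem_union, mem_insert]
      tauto
    have hact : Act (C ∪ jd J) (join e (j, 0) (j, 1)) := by
      rw [← hE']; exact join_act he hxE hyE hxy
    have hcard : (C ∪ jd (insert j J)).card = (C ∪ jd J).card + 2 := by
      rw [← hE', Finset.card_erase_of_mem, Finset.card_erase_of_mem hxE]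
      · have : 1 < (C ∪ jd (insert j J)).card :=
          Finset.one_lt_card.2 ⟨_, hxE, _, hyE, hxy⟩
        omega
      · rw [mem_erase]; exact ⟨hxy.symm, hyE⟩
    have hvol : ∀ α β, Vol e α → Vol (join e (j, 0) (j, 1)) (jv e α (j, 0) (j, 1) β) :=
      fun α β h => hJV (W × Fin 4) A e α (j, 0) (j, 1) β he.1 h hxy hex hey
    -- the three parts
    have hsplit : ∀ α, Vol e α → PS4_P C (insert j J) p γ e α =
        (∑ t ∈ pf J, X ^ Nat.log 2 (PS4_N C (insert j J) p γ e α (Function.update t j 0))) +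
        X ^ lv e α (j, 0) (j, 1) 0 *
          PS4_P C J p γ (join e (j, 0) (j, 1)) (jv e α (j, 0) (j, 1) 0) +
        X ^ lv e α (j, 0) (j, 1) (γ (j, 0)) *
          PS4_P C J p γ (join e (j, 0) (j, 1)) (jv e α (j, 0) (j, 1) (γ (j, 0))) := by
      intro α hα
      unfold PS4_P
      rw [PS4_pf j J hj, Fin.sum_univ_three]
      congr 1
      · congr 1
        rw [Finset.mul_sum]
        apply Finset.sum_congr rfl
        intro t _
        rw [PS4_jn hJL C J p γ e α t j hj hCj hp he.1 hα hex hey 1 0 (by decide)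
          (by
            intro φ ψ
            unfold VC
            rw [if_neg (by decide), if_pos rfl]
            simp only [add_zero]
            exact ⟨fun h g => by rw [h], fun h => funext fun g => (h g).symm⟩),
          PS4_log _ _ (PS4_pos _ _ _ _ _ _ _), pow_add]
      · rw [Finset.mul_sum]
        apply Finset.sum_congr rfl
        intro t _
        rw [PS4_jn hJL C J p γ e α t j hj hCj hp he.1 hα hex hey 2 (γ (j, 0)) (by decide)
          (by
            intro φ ψ
            unfold VC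
            rw [if_neg (by decide), if_neg (by decide)]),
          PS4_log _ _ (PS4_pos _ _ _ _ _ _ _), pow_add]
    by_cases hc : e (j, 0) = (j, 1)
    · -- the strand from x to y
      have hp0 : p ≠ (j, 0) := fun h => hCj p hp (congrArg Prod.fst h)
      have hp1 : p ≠ (j, 1) := fun h => hCj p hp (congrArg Prod.fst h)
      have hpE : p ∈ C ∪ jd J := mem_union_left _ hp
      have hne : (C ∪ jd (insert j J)).card ≠ 2 := by
        rw [hcard]
        have : 0 < (C ∪ jd J).card := Finset.card_pos.2 ⟨p, hpE⟩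
        omega
      have key : ∀ α, Vol e α → (PS4_P C (insert j J) p γ e α).coeff 0 = 0 ∧
          (PS4_P C (insert j J) p γ e α).coeff 1 = 0 := by
        intro α hα
        rw [hsplit α hα]
        have l0 : ∀ β, lv e α (j, 0) (j, 1) β = wA (α (j, 0) - β) := by
          intro β; unfold lv; rw [if_pos hc]
        have w1 : ∀ h : A, 1 ≤ wA h := fun h => (hWT A h).2
        have i0 := (ih C γ _ hCJ hp hγJ hact _ _ (hvol α 0 hα) (hvol α 0 hα)).1
        have i1 := (ih C γ _ hCJ hp hγJ hact _ _ (hvol α (γ (j, 0)) hα) (hvol α 0 hα)).1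
        rw [l0, l0, coeff_add, coeff_add, coeff_add, coeff_add, PS4_mul0 _ (w1 _),
          PS4_mul0 _ (w1 _), PS4_mul1 _ (w1 _), PS4_mul1 _ (w1 _), i0, i1, finsetSum_coeff,
          finsetSum_coeff]
        have s0 : ∀ t ∈ pf J, ((X : (ZMod 2)[X]) ^
            Nat.log 2 (PS4_N C (insert j J) p γ e α (Function.update t j 0))).coeff 0 = 0 := by
          intro t _
          apply PS4_X0
          apply Nat.le_log_of_pow_le (by norm_num)
          refine le_trans ?_ (PS4_low hWT hA C J p γ e α t j hj hCj hp he.1 hα hc hγj)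
          norm_num
        have s1 : ∀ t ∈ pf J, ((X : (ZMod 2)[X]) ^
            Nat.log 2 (PS4_N C (insert j J) p γ e α (Function.update t j 0))).coeff 1 = 0 := by
          intro t _
          apply PS4_X1
          apply Nat.le_log_of_pow_le (by norm_num)
          refine le_trans ?_ (PS4_low hWT hA C J p γ e α t j hj hCj hp he.1 hα hc hγj)
          norm_num
        rw [Finset.sum_eq_zero s0, Finset.sum_eq_zero s1]
        refine ⟨by ring, ?_⟩
        have hw : wA (α (j, 0) - 0) = 1 ↔ wA (α (j, 0) - γ (j, 0)) = 1 := by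
          rw [sub_zero]; exact PS4_wA2 hA _ _ hγj
        by_cases hw1 : wA (α (j, 0) - 0) = 1
        · rw [if_pos hw1, if_pos (hw.1 hw1), zero_add]
          exact CharTwo.add_self_eq_zero _
        · rw [if_neg hw1, if_neg (fun h => hw1 (hw.2 h))]
          ring
      rw [if_neg hne]
      exact ⟨(key α hα).1, fun _ => (key α hα).2, by rw [(key α hα).2, (key α' hα').2]⟩
    · -- no loop
      have key : ∀ α, Vol e α →
          (PS4_P C (insert j J) p γ e α).coeff 0 =
            (PS4_P (insert (j, 0) (insert (j, 1) C)) J p (Function.update γ (j, 1) (γ (j, 0)))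
              e α).coeff 0 ∧
          (PS4_P C (insert j J) p γ e α).coeff 1 =
            (PS4_P (insert (j, 0) (insert (j, 1) C)) J p (Function.update γ (j, 1) (γ (j, 0)))
              e α).coeff 1 := by
        intro α hα
        rw [hsplit α hα]
        have l0 : ∀ β, lv e α (j, 0) (j, 1) β = 0 := by
          intro β; unfold lv; rw [if_neg hc]
        have i0 := ih C γ _ hCJ hp hγJ hact _ _ (hvol α 0 hα) (hvol α (γ (j, 0)) hα)
        have i1 := (ih C γ _ hCJ hp hγJ hact _ _ (hvol α (γ (j, 0)) hα) (hvol α 0 hα)).1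
        have hP0 : (∑ t ∈ pf J, X ^ Nat.log 2 (PS4_N C (insert j J) p γ e α
            (Function.update t j 0))) =
            PS4_P (insert (j, 0) (insert (j, 1) C)) J p (Function.update γ (j, 1) (γ (j, 0)))
              e α := by
          unfold PS4_P
          apply Finset.sum_congr rfl
          intro t _
          rw [PS4_cap C J p γ e α t j hj hCj]
        rw [hP0, l0, l0, pow_zero, one_mul, one_mul, coeff_add, coeff_add, coeff_add, coeff_add,
          i0.1, i1, i0.2.2, add_assoc, add_assoc, CharTwo.add_self_eq_zero,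
          CharTwo.add_self_eq_zero, add_zero, add_zero]
        exact ⟨rfl, rfl⟩
      have hC2 : ∀ c ∈ insert (j, 0) (insert (j, 1) C), (c : W × Fin 4).1 ∉ J := by
        intro c hc2
        rw [mem_insert, mem_insert] at hc2
        rcases hc2 with rfl | rfl | hc2
        · exact hj
        · exact hj
        · exact hCJ c hc2
      have hp2 : p ∈ insert ((j, 0) : W × Fin 4) (insert (j, 1) C) :=
        mem_insert_of_mem (mem_insert_of_mem hp)
      have hγ2 : ∀ i ∈ J, Function.update γ (j, 1) (γ (j, 0)) (i, 0) ∈ O2 A := by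
        intro i hi
        have hij : ((i, 0) : W × Fin 4) ≠ (j, 1) := by
          intro h
          have h3 : i = j := congrArg Prod.fst h
          rw [h3] at hi
          exact hj hi
        rw [Function.update_of_ne hij]
        exact hγJ i hi
      have hfin := ih (insert (j, 0) (insert (j, 1) C)) (Function.update γ (j, 1) (γ (j, 0))) e
        hC2 hp2 hγ2 (hE ▸ he) α α' hα hα'
      rw [← hE] at hfin
      rw [(key α hα).1, (key α hα).2, (key α' hα').2]
      exact hfin

end

theorem PS4_pz {W A : Type} [Fintype W] [DecidableEq W] [AddCommGroup A] [Fintype A]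
    (hA : Nat.card A = 4) (K : Finset W) : ((pz (A := A) K).card : ZMod 2) = 1 := by
  classical
  have h1 : pz (A := A) K = Fintype.piFinset fun k =>
      if k ∈ K then (univ : Finset A).filter (fun g => g ∈ O2 A) else {0} := by
    ext ζ
    rw [Fintype.mem_piFinset]
    simp only [pz, mem_filter, mem_univ, true_and]
    constructor
    · rintro ⟨h1, h2⟩ k
      by_cases hk : k ∈ K
      · rw [if_pos hk, mem_filter]; exact ⟨mem_univ _, h1 k hk⟩
      · rw [if_neg hk, mem_singleton]; exact h2 k hk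
    · intro h
      constructor
      · intro k hk
        have := h k
        rw [if_pos hk, mem_filter] at this
        exact this.2
      · intro k hk
        have := h k
        rw [if_neg hk, mem_singleton] at this
        exact this
  rw [h1, Fintype.card_piFinset]
  push_cast
  apply Finset.prod_eq_one
  intro k _
  by_cases hk : k ∈ K
  · rw [if_pos hk]; exact PS4_odd hA
  · rw [if_neg hk]; simp

theorem PS4_Om {W A : Type} [Fintype W] [DecidableEq W] [AddCommGroup A] [Fintype A]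
    (C : Finset (W × Fin 4)) (J K : Finset W) (w : W) (γ : W × Fin 4 → A)
    (e : W × Fin 4 → W × Fin 4) (α : W × Fin 4 → A) (hJK : Disjoint J K)
    (hC : ∀ c ∈ C, c.1 ∉ J ∧ c.1 ∉ K) :
    Om C J K {w} γ e α = ∑ ζ ∈ pz K, PS4_P (C ∪ K ×ˢ {0}) J (w, 0)
      (fun d => if d.1 ∈ K then ζ d.1 else γ d) e α := by
  unfold Om PS4_P
  rw [Finset.sum_comm]
  apply Finset.sum_congr rfl
  intro ζ _
  apply Finset.sum_congr rfl
  intro t _
  congr 1
  unfold LK PS4_N
  congr 1
  apply Nat.card_congr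
  apply Equiv.subtypeEquivRight
  intro Φ
  unfold LabK
  have e1 : (∀ c ∈ C ∪ K ×ˢ {0}, CapC (if c.1 ∈ K then ζ c.1 else γ c) (Φ c)) ↔
      (∀ c ∈ C, CapC (γ c) (Φ c)) ∧ ∀ k ∈ K, CapC (ζ k) (Φ (k, 0)) := by
    constructor
    · intro h
      constructor
      · intro c hc
        have := h c (mem_union_left _ hc)
        rw [if_neg (hC c hc).2] at this
        exact this
      · intro k hk
        have := h (k, 0) (mem_union_right _ (by simp [hk]))
        rw [if_pos hk] at this
        exact this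
    · rintro ⟨h1, h2⟩ c hc
      rw [mem_union] at hc
      rcases hc with hc | hc
      · rw [if_neg (hC c hc).2]; exact h1 c hc
      · rw [mem_product, mem_singleton] at hc
        obtain ⟨c1, c2⟩ := c
        simp only at hc
        obtain ⟨hc1, rfl⟩ := hc
        simp only [hc1, if_true]
        exact h2 c1 hc1
  have e2 : (∀ j ∈ J, VC (if ((j, 0) : W × Fin 4).1 ∈ K then ζ (j, (0 : Fin 4)).1 else γ (j, 0))
      (t j) (Φ (j, 0)) (Φ (j, 1))) ↔ (∀ j ∈ J, VC (γ (j, 0)) (t j) (Φ (j, 0)) (Φ (j, 1))) := by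
    apply forall₂_congr
    intro j hj
    have : j ∉ K := Finset.disjoint_left.1 hJK hj
    simp only [this, if_false]
  rw [e1, e2]
  simp only [mem_singleton, forall_eq]
  tauto

theorem PS4 (hWT : WT_stmt) (hJV : JV_stmt) (hJL : JL_stmt) : PS4_stmt := by
  intro W A _ _ _ _ C J K w γ e α α' hA hJK hC hw hγC hγJ he hα hα'
  have hE : Ed C J K = (C ∪ K ×ˢ {0}) ∪ jd J := by
    unfold Ed
    ext z
    simp only [mem_union]
    tauto
  rw [hE] at he ⊢
  have hC' : ∀ c ∈ C ∪ K ×ˢ {0}, (c : W × Fin 4).1 ∉ J := by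
    intro c hc
    rw [mem_union] at hc
    rcases hc with hc | hc
    · exact (hC c hc).1
    · rw [mem_product] at hc
      exact Finset.disjoint_right.1 hJK hc.1
  have hp : ((w, 0) : W × Fin 4) ∈ C ∪ K ×ˢ {0} := mem_union_right _ (by simp [hw])
  have key : ∀ ζ : W → A, ∀ α α', Vol e α → Vol e α' → _ := fun ζ α α' hα hα' =>
    PS4_ind hWT hJV hJL hA (w, 0) J (C ∪ K ×ˢ {0})
      (fun d => if d.1 ∈ K then ζ d.1 else γ d) e hC' hp
      (by
        intro j hj
        have : j ∉ K := Finset.disjoint_left.1 hJK hj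
        simp only [this, if_false]
        exact hγJ j hj) he α α' hα hα'
  rw [PS4_Om C J K w γ e α hJK hC, PS4_Om C J K w γ e α' hJK hC, finsetSum_coeff,
    finsetSum_coeff, finsetSum_coeff]
  refine ⟨?_, ?_, ?_⟩
  · rw [Finset.sum_congr rfl fun ζ _ => (key ζ α α' hα hα').1, Finset.sum_const, nsmul_eq_mul,
      PS4_pz hA, one_mul]
  · intro h4
    exact Finset.sum_eq_zero fun ζ _ => (key ζ α α' hα hα').2.1 h4
  · exact Finset.sum_congr rfl fun ζ _ => (key ζ α α' hα hα').2.2

end Pool.Agent.SYM
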